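import Mathlib
import Pool.Agent.Y940.Cov.Fin

/-!
# The sharp covering law for random subsets of all finite abelian groups, all sizes `k ≥ c √N`

For a random `k`-element subset `A` of a finite abelian group `G` of order `N`, `c √N ≤ k ≤ N`, the
largest proportion of `G` covered by `t` translates of `A` is `1 - (1 - k/N)^t + o(1)` for all
`t ≤ C N/k` simultaneously, with probability `1 - o(1)`, uniformly in `G` and `k`; in particular
(`k ≤ (1 - δ) N`) no `C N/k` translates cover `G`.  The case `G = ℤ/pℤ`, `k = ⌊√p⌋` contains the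
negative answer to Green's question.
-/

set_option autoImplicit false

open scoped Pointwise

namespace Pool.Agent.Results.MP_cb22e8_co.AllGroupsAllSizes

/-- The largest number of elements of `G` in a union `A + T` of at most `t` translates of `A`. -/
noncomputable def maxCover {G : Type} [AddCommGroup G] [Fintype G] [DecidableEq G]
    (A : Finset G) (t : ℕ) : ℕ :=
  ((Finset.univ : Finset (Finset G)).filter (fun T => T.card ≤ t)).sup (fun T => (A + T).card)

open Classical in
/-- First part: the sharp law.  Second part: no covering by `C N / k` translates. -/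
theorem result :
    (∀ C c η ε : ℝ, 0 < c → 0 < η → 0 < ε →
      ∃ N₀ : ℕ, ∀ (G : Type) [AddCommGroup G] [Fintype G] [DecidableEq G],
        N₀ ≤ Fintype.card G →
        ∀ k : ℕ, c * Real.sqrt (Fintype.card G) ≤ k → k ≤ Fintype.card G →
          (((Finset.powersetCard k (Finset.univ : Finset G)).filter (fun A =>
              ∃ t : ℕ, (t : ℝ) * k ≤ C * Fintype.card G ∧
                η ≤ |(maxCover A t : ℝ) / Fintype.card G -
                  (1 - (1 - (k : ℝ) / Fintype.card G) ^ t)|)).card : ℝ) ≤
            ε * ((Finset.powersetCard k (Finset.univ : Finset G)).card : ℝ)) ∧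
    (∀ C c δ ε : ℝ, 0 < c → 0 < δ → δ < 1 → 0 < ε →
      ∃ N₀ : ℕ, ∀ (G : Type) [AddCommGroup G] [Fintype G] [DecidableEq G],
        N₀ ≤ Fintype.card G →
        ∀ k : ℕ, c * Real.sqrt (Fintype.card G) ≤ k → (k : ℝ) ≤ (1 - δ) * Fintype.card G →
          (((Finset.powersetCard k (Finset.univ : Finset G)).filter (fun A =>
              ∃ T : Finset G, (T.card : ℝ) * k ≤ C * Fintype.card G ∧
                A + T = Finset.univ)).card : ℝ) ≤
            ε * ((Finset.powersetCard k (Finset.univ : Finset G)).card : ℝ)) := by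
  refine ⟨?_, ?_⟩
  · intro C c η ε hc hη hε
    obtain ⟨N₀, hN₀⟩ := Pool.Agent.Y940.Cov.law C c η ε hc hη hε
    refine ⟨N₀, ?_⟩
    intro G _ _ _ hG k hk1 hk2
    rw [Finset.card_powersetCard, Finset.card_univ]
    apply hN₀ G hG k hk1 hk2
    intro A hA
    obtain ⟨hA1, t, ht, hd⟩ := Finset.mem_filter.mp hA
    exact ⟨(Finset.mem_powersetCard.mp hA1).2, t, ht, hd⟩
  · intro C c δ ε hc hδ hδ1 hε
    obtain ⟨N₀, hN₀⟩ := Pool.Agent.Y940.Cov.noCover C c δ ε hc hδ hδ1 hε
    refine ⟨N₀, ?_⟩
    intro G _ _ _ hG k hk1 hk2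
    rw [Finset.card_powersetCard, Finset.card_univ]
    apply hN₀ G hG k hk1 hk2
    intro A hA
    obtain ⟨hA1, T, hT, hd⟩ := Finset.mem_filter.mp hA
    exact ⟨(Finset.mem_powersetCard.mp hA1).2, T, hT, hd⟩

end Pool.Agent.Results.MP_cb22e8_co.AllGroupsAllSizes
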